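import Pool.Agent.Y17.X.Sel
import Pool.Agent.Y17.X.Joint
import Pool.Agent.Y17.X.CntN
import Pool.Agent.Y687.JQ.Fin
import Pool.Agent.Y687.JQ.Mat

/-!
# Central order zero for a positive proportion of a family of twists over multiquadratic fields

`E^M : y² = x³ + 5805 M² x - 285714 M³` is the twist by `M` of the non-CM curve `X_0(14)`. Let
`K = ℚ(√d_1, …, √d_n)` be of degree `2ⁿ`, where `M` and the `d_i` are, up to squares, in the class
`Adm` of the squarefree `D = 1 mod 4` of any sign which are squares modulo `7`, prime to `3`, and all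
prime factors of which split completely in `ℚ(i, √2, √-7)` or are inert in `ℚ(√2)` and in `ℚ(√-7)`.
Let `π` be the automorphic representation of `GL₂(𝔸_K)` of `E^M` over `K`. For at least the proportion
`c ^ 2ⁿ`, `c = ∏_{i ≥ 0} (1 - 2^{-(2i+1)}) = 0.4194...`, of the `D` in the class of a given sign the
twist of `π` by the quadratic character of `K(√D)/K` has central order `0`.
-/

set_option autoImplicit false

open Finset Filter NumberField IsDedekindDomain

namespace Pool.Agent.Results.MP_50bb2e_nt.BaseChangeTwists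

/-- coefficients of the twist `E^M : y² = x³ + A M x + B M` of `X_0(14)` -/
def A (M : ℤ) : ℤ := 5805 * M ^ 2

/-- coefficients of the twist `E^M : y² = x³ + A M x + B M` of `X_0(14)` -/
def B (M : ℤ) : ℤ := -285714 * M ^ 3

/-- primes which split completely in `ℚ(i, √2, √-7)` -/
def Split (p : ℕ) : Prop := p.Prime ∧ p % 8 = 1 ∧ (p % 7 = 1 ∨ p % 7 = 2 ∨ p % 7 = 4)

/-- primes inert in `ℚ(√2)` and in `ℚ(√-7)` -/
def Inert (q : ℕ) : Prop :=
  q.Prime ∧ (q % 8 = 3 ∨ q % 8 = 5) ∧ (q % 7 = 3 ∨ q % 7 = 5 ∨ q % 7 = 6)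

/-- the class of discriminants -/
def Adm (D : ℤ) : Prop := Squarefree D ∧ D % 4 = 1 ∧ (D % 7 = 1 ∨ D % 7 = 2 ∨ D % 7 = 4) ∧
  ∀ p : ℕ, p.Prime → (p : ℤ) ∣ D → p ≠ 3 ∧ (Split p ∨ Inert p)

/-- in the class up to a nonzero square -/
def AdmSq (N : ℤ) : Prop := ∃ D k : ℤ, Adm D ∧ k ≠ 0 ∧ N = D * k ^ 2

/-- the number of the `D` in the class with `s D > 0`, `|D| ≤ X` and the property `Q` -/
noncomputable def count (s : ℤ) (Q : ℤ → Prop) (X : ℕ) : ℕ :=
  Nat.card {D : ℤ // |D| ≤ X ∧ Adm D ∧ 0 < s * D ∧ Q D}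

/-- `K = ℚ(√d_1, …, √d_n)` -/
def IsMultiquadratic {n : ℕ} (d : Fin n → ℤ) (K : Type) [Field K] [NumberField K] : Prop :=
  ∃ x : Fin n → K, (∀ i, x i ^ 2 = (d i : K)) ∧ IntermediateField.adjoin ℚ (Set.range x) = ⊤

/-- the number `q_v` of elements of the residue field of a finite place `v` of `K` -/
noncomputable def qv (K : Type) [Field K] (v : HeightOneSpectrum (𝓞 K)) : ℕ :=
  Nat.card (𝓞 K ⧸ v.asIdeal)

/-- `a_v = q_v + 1 - #E^M(k_v)`, that is `q_v` minus the number of affine points -/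
noncomputable def av (K : Type) [Field K] (M : ℤ) (v : HeightOneSpectrum (𝓞 K)) : ℤ :=
  (qv K v : ℤ) - Nat.card {z : (𝓞 K ⧸ v.asIdeal) × (𝓞 K ⧸ v.asIdeal) //
    z.2 ^ 2 = z.1 ^ 3 + (A M : 𝓞 K ⧸ v.asIdeal) * z.1 + (B M : 𝓞 K ⧸ v.asIdeal)}

open Classical in
/-- `F` is entire and is, for `Re s > 3/2`, the `L`-function of `E^M` over `K` without the Euler
factors at the places `v ∣ 42 M m` -/
def IsL (K : Type) [Field K] (M m : ℤ) (F : ℂ → ℂ) : Prop :=
  Differentiable ℂ F ∧ ∀ s : ℂ, (3 : ℝ) / 2 < s.re →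
    HasProd (fun v : HeightOneSpectrum (𝓞 K) =>
      if ((42 * M * m : ℤ) : 𝓞 K) ∈ v.asIdeal then 1 else
        (1 - (av K M v : ℂ) * (qv K v : ℂ) ^ (-s) + (qv K v : ℂ) ^ (1 - 2 * s))⁻¹) (F s)

/-- the `L`-function of `E^M` over `K` is entire and not zero at the centre `s = 1` -/
def OrderZero (K : Type) [Field K] (M m : ℤ) : Prop :=
  (∃ F : ℂ → ℂ, IsL K M m F) ∧ ∀ F : ℂ → ℂ, IsL K M m F → F 1 ≠ 0

theorem result : ∃ c : ℝ, 0.4194 < c ∧ c < 0.4195 ∧
    Tendsto (fun n : ℕ => ∏ i ∈ range n, (1 - (1 / 2 : ℝ) ^ (2 * i + 1))) atTop (nhds c) ∧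
    ∀ (n : ℕ) (M : ℤ) (d : Fin n → ℤ), AdmSq M → (∀ i, AdmSq (d i)) →
      (∀ T : Finset (Fin n), T.Nonempty → ¬ IsSquare (∏ i ∈ T, d i)) →
      ∀ (K : Type) [Field K] [NumberField K], IsMultiquadratic d K →
      ∀ s : ℤ, (s = 1 ∨ s = -1) → ∀ ε : ℝ, 0 < ε → ∃ X₀ : ℕ, ∀ X : ℕ, X₀ ≤ X →
        0 < count s (fun _ => True) X ∧
        (c ^ 2 ^ n - ε) * (count s (fun _ => True) X : ℝ) ≤
          (count s (fun D => OrderZero K (M * D) (∏ i, d i)) X : ℝ) := by
  classical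
  have hA : ∀ D : ℤ, Adm D ↔ Y687.MQ.AdmD D := fun D => Iff.rfl
  obtain ⟨hC, -, -, hc1, hc2⟩ := Y948.CQ.t_C2
  refine ⟨Y703.CQ.c2, hc1, hc2, ?_, ?_⟩
  · rw [tendsto_iff_norm_sub_tendsto_zero]
    refine squeeze_zero (fun n => norm_nonneg _) (fun n => ?_)
      (tendsto_pow_atTop_nhds_zero_of_lt_one (by norm_num : (0 : ℝ) ≤ 1 / 4)
        (by norm_num : (1 / 4 : ℝ) < 1))
    rw [Real.norm_eq_abs]
    exact hC n
  intro n M d hM hd hind K _ _ hK s hs ε hε
  obtain ⟨x, hx, hK⟩ := hK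
  -- from the sets of discriminants to the `L`-function over the field
  have hGO : ∀ N : ℤ, Y687.JQ.GO d N → OrderZero K N (∏ i, d i) := by
    intro N hN
    have h : Y687.MQ.AdT Y687.MQ.ClG N d := by
      intro T
      obtain ⟨D, k, h1, hk, he⟩ := hN T
      obtain ⟨P, T', h2, rfl⟩ := (Y687.MQ.good_iff).1 h1
      exact ⟨P, T', k, h2, hk, he⟩
    obtain ⟨⟨F, hF, hF1⟩, -⟩ := Y687.MQ.field_thm (fun P T => Y687.MQ.WB_all) h hind K x hx hK
    have hL : ∀ G : ℂ → ℂ, IsL K N (∏ i, d i) G ↔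
        Y19.QT.IsLFunK K (A N) (B N) (∏ i, d i) G := by
      intro G
      have key : ∀ v : HeightOneSpectrum (𝓞 K),
          (((42 * N * ∏ i, d i : ℤ) : 𝓞 K) ∈ v.asIdeal ↔
            ((2 * (4 * A N ^ 3 + 27 * B N ^ 2) * ∏ i, d i : ℤ) : 𝓞 K) ∈ v.asIdeal) := by
        intro v
        have := v.isPrime
        constructor
        · intro h1
          have e : ((2 * (4 * A N ^ 3 + 27 * B N ^ 2) * ∏ i, d i : ℤ) : 𝓞 K) =
              ((2 ^ 14 * 3 ^ 11 * 7 ^ 2 * N ^ 5 : ℤ) : 𝓞 K) *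
                ((42 * N * ∏ i, d i : ℤ) : 𝓞 K) := by
            rw [← Int.cast_mul]
            congr 1
            unfold A B
            ring
          rw [e]
          exact Ideal.mul_mem_left _ _ h1
        · intro h1
          refine Ideal.IsPrime.mem_of_pow_mem this 15 ?_
          have e : ((42 * N * ∏ i, d i : ℤ) : 𝓞 K) ^ 15 =
              ((3 ^ 3 * 7 ^ 12 * N ^ 9 * (∏ i, d i) ^ 14 : ℤ) : 𝓞 K) *
                ((2 * (4 * A N ^ 3 + 27 * B N ^ 2) * ∏ i, d i : ℤ) : 𝓞 K) := by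
            rw [← Int.cast_mul, ← Int.cast_pow]
            congr 1
            unfold A B
            ring
          rw [e]
          exact Ideal.mul_mem_left _ _ h1
      unfold IsL Y19.QT.IsLFunK
      simp only [key]
      rfl
    refine ⟨⟨F, (hL F).2 hF⟩, fun G hG => ?_⟩
    rw [Y687.MQ.isLFunK_unique ((hL G).1 hG) hF]
    exact hF1
  have hM' : Y687.JQ.AdS M := hM
  have hlim := Y687.JQ.prop_field Y687.JQ.t_JDEN hind (fun i => hd i) hM' hs
  have h1 : ∀ X, count s (fun _ => True) X =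
      ((Icc 1 X).filter fun D : ℕ => Y687.MQ.AdmD (s * D)).card :=
    fun X => Y17.X.count_nat hs X
  have h2 : ∀ X, ((Icc 1 X).filter fun D : ℕ => Y687.MQ.AdmD (s * D) ∧
      Y687.JQ.GO d (M * (s * D))).card ≤ count s (fun D => OrderZero K (M * D) (∏ i, d i)) X := by
    intro X
    exact Y17.X.le_count_nat hs (fun D => Y687.JQ.GO d (M * D))
      (fun D => OrderZero K (M * D) (∏ i, d i)) (fun D h => hGO _ h) X
  have hpos : ∀ᶠ X in atTop, 0 < count s (fun _ => True) X := by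
    have := Y17.X.base_atTop hs
    have h3 : (fun X => count s (fun _ => True) X) =
        fun X => Y17.X.count (fun D => Y687.MQ.AdmD D ∧ 0 < s * D) X := by
      funext X
      unfold count Y17.X.count
      simp only [hA, and_true]
    exact (h3 ▸ this).eventually_gt_atTop 0
  have hev := hlim.eventually_const_lt
    (show Y703.CQ.c2 ^ 2 ^ n - ε < Y703.CQ.c2 ^ 2 ^ n by linarith)
  obtain ⟨X₀, hX₀⟩ := eventually_atTop.1 (hev.and hpos)
  refine ⟨X₀, fun X hX => ⟨(hX₀ X hX).2, ?_⟩⟩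
  obtain ⟨k1, k2⟩ := hX₀ X hX
  have k3 : (0 : ℝ) < (count s (fun _ => True) X : ℝ) := by exact_mod_cast k2
  rw [← h1 X] at k1
  have k4 := (lt_div_iff₀ k3).1 k1
  have k5 : ((((Icc 1 X).filter fun D : ℕ => Y687.MQ.AdmD (s * D) ∧
      Y687.JQ.GO d (M * (s * D))).card : ℕ) : ℝ) ≤
      (count s (fun D => OrderZero K (M * D) (∏ i, d i)) X : ℝ) := by exact_mod_cast h2 X
  exact k4.le.trans k5

end Pool.Agent.Results.MP_50bb2e_nt.BaseChangeTwists
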