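import Pool.Agent.Y19.QT.MCF

/-!
# Orders of vanishing of quadratic twists with prescribed local components and sign

`E : y² = x³ + a x + b` is an elliptic curve over `ℚ`, `F = ℚ(√e_1, …, √e_n)` a multiquadratic field of
degree `2ⁿ` (`n = 0`: `F = ℚ`), `π` the representation of `GL₂` of the adeles of `F` attached to `E`, and for
a squarefree integer `d` (positive or negative) `χ_d` is the quadratic character of `F` attached to `F(√d)`,
so that `L(s, π ⊗ χ_d) = L(E_d/F, s + 1/2)`.  Fix a finite set `S` of primes and a squarefree integer `d₀`.
Let `A` be the set of the `d` for which `χ_d` and `χ_{d₀}` have the same components at all places above the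
primes in `S` and above `∞` (we ask that `d d₀` is a square in `ℚ_p` for `p ∈ S` and positive) and for which
the central orders of `L(s, π ⊗ χ_d)` and `L(s, π ⊗ χ_{d₀})` have the same parity (that is,
`ε(π ⊗ χ_d) = ε(π ⊗ χ_{d₀})`).

We prove, without any hypothesis, for all `E` with `j`-invariant `0` or `1728` and for all quadratic twists of
`X₀(11)` and `X₀(14)`, and for every elliptic curve over `ℚ` whose quadratic twists are modular: `A` has
positive lower density, at most `C |A(X)| (log X)^A e^{-c r}` of the `d` in `A(X)` have central order at
least `r`, and all but `C |A(X)| / (log X)^B` of the `d` in `A(X)` have central order at most `k log log X`.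

Method: a large sieve inequality for quadratic characters with a loss of a power of `log X` only, applied to
the `2ⁿ` twists of the newform in the decomposition of the `L`-function over `F`; the signs of the functional
equations are functions of the sign and of the residue class of `d`.
-/

set_option autoImplicit false

namespace Pool.Agent.Results.MP_50bb2e_nt.LocalConditions

open Pool.Agent.Y19.QT

theorem result : (∀ a b : ℤ, Fam a b → ClassLaw a b) ∧
    ∀ a b : ℤ, 4 * a ^ 3 + 27 * b ^ 2 ≠ 0 → TwistsModular a b → ClassLaw a b :=
  ⟨fun _ _ h => classLaw_fam s_CL1 h, fun _ _ hab h => classLaw_modular s_CL1 hab h⟩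

end Pool.Agent.Results.MP_50bb2e_nt.LocalConditions
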